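import Pool.Agent.H33.GC.Stm
import Pool.Agent.H20.WC.Main

/-!
MP_90715c_gt, theorem GC, row 2: the limit direction `b0`, from the ergodic theorem for `G ^ m`
and the compactness of the circle.
-/

set_option autoImplicit false
set_option linter.unusedSimpArgs false

open Matrix Set Filter Topology MeasureTheory
open scoped NNReal

namespace Pool.Agent.H60.GC

open Pool.Agent.H90.WC Pool.Agent.H33.GC

/-! ### Elementary matrices -/

/-- upper unipotent matrices -/
def up (x : ℂ) : G := ⟨!![1, x; 0, 1], by simp [Matrix.det_fin_two]⟩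

/-- lower unipotent matrices -/
def lo (x : ℂ) : G := ⟨!![1, 0; x, 1], by simp [Matrix.det_fin_two]⟩

@[simp] lemma up_00 (x : ℂ) : up x 0 0 = 1 := rfl
@[simp] lemma up_01 (x : ℂ) : up x 0 1 = x := rfl
@[simp] lemma up_10 (x : ℂ) : up x 1 0 = 0 := rfl
@[simp] lemma up_11 (x : ℂ) : up x 1 1 = 1 := rfl
@[simp] lemma lo_00 (x : ℂ) : lo x 0 0 = 1 := rfl
@[simp] lemma lo_01 (x : ℂ) : lo x 0 1 = 0 := rfl
@[simp] lemma lo_10 (x : ℂ) : lo x 1 0 = x := rfl
@[simp] lemma lo_11 (x : ℂ) : lo x 1 1 = 1 := rfl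
@[simp] lemma sc_00 (k : ℕ) : sc k 0 0 = (1 / 2) ^ k := rfl
@[simp] lemma sc_01 (k : ℕ) : sc k 0 1 = 0 := rfl
@[simp] lemma sc_10 (k : ℕ) : sc k 1 0 = 0 := rfl
@[simp] lemma sc_11 (k : ℕ) : sc k 1 1 = 2 ^ k := rfl

lemma up_add (x y : ℂ) : up (x + y) = up x * up y := by
  apply ext_G <;> simp [mul_00, mul_01, mul_10, mul_11, add_comm]

lemma lo_add (x y : ℂ) : lo (x + y) = lo x * lo y := by
  apply ext_G <;> simp [mul_00, mul_01, mul_10, mul_11]

lemma up_zero : up 0 = 1 := by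
  apply ext_G <;> simp

lemma lo_zero : lo 0 = 1 := by
  apply ext_G <;> simp

lemma sc_add (k l : ℕ) : sc (k + l) = sc k * sc l := by
  apply ext_G <;> simp [mul_00, mul_01, mul_10, mul_11, pow_add]

lemma sc_zero : sc 0 = 1 := by
  apply ext_G <;> simp

lemma sc_pow (k : ℕ) : sc 1 ^ k = sc k := by
  induction k with
  | zero => rw [pow_zero, sc_zero]
  | succ k ih => rw [pow_succ, ih, ← sc_add]

lemma sc_up (k : ℕ) (x : ℂ) : sc k * up x * (sc k)⁻¹ = up ((1 / 4) ^ k * x) := by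
  have h1 : ((1 : ℂ) / 2) ^ k * 2 ^ k = 1 := by rw [← mul_pow]; norm_num
  have h2 : ((1 : ℂ) / 2) ^ k * (1 / 2) ^ k = (1 / 4) ^ k := by rw [← mul_pow]; norm_num
  have h3 : (2 : ℂ) ^ k * (1 / 2) ^ k = 1 := by rw [← mul_pow]; norm_num
  apply ext_G
  · rw [mul_00, mul_00, mul_01, inv_00, inv_10]
    simp only [up_00, up_01, up_10, up_11, sc_00, sc_01, sc_10, sc_11]
    linear_combination h1
  · rw [mul_01, mul_00, mul_01, inv_01, inv_11]
    simp only [up_00, up_01, up_10, up_11, sc_00, sc_01, sc_10, sc_11]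
    linear_combination x * h2
  · rw [mul_10, mul_10, mul_11, inv_00, inv_10]
    simp only [up_00, up_01, up_10, up_11, sc_00, sc_01, sc_10, sc_11]
    ring
  · rw [mul_11, mul_10, mul_11, inv_01, inv_11]
    simp only [up_00, up_01, up_10, up_11, sc_00, sc_01, sc_10, sc_11]
    linear_combination h3

lemma sc_lo (k : ℕ) (x : ℂ) : (sc k)⁻¹ * lo x * sc k = lo ((1 / 4) ^ k * x) := by
  have h1 : ((1 : ℂ) / 2) ^ k * 2 ^ k = 1 := by rw [← mul_pow]; norm_num
  have h2 : ((1 : ℂ) / 2) ^ k * (1 / 2) ^ k = (1 / 4) ^ k := by rw [← mul_pow]; norm_num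
  have h3 : (2 : ℂ) ^ k * (1 / 2) ^ k = 1 := by rw [← mul_pow]; norm_num
  apply ext_G
  · rw [mul_00, mul_00, mul_01, inv_00, inv_01]
    simp only [lo_00, lo_01, lo_10, lo_11, sc_00, sc_01, sc_10, sc_11]
    linear_combination h3
  · rw [mul_01, mul_00, mul_01, inv_00, inv_01]
    simp only [lo_00, lo_01, lo_10, lo_11, sc_00, sc_01, sc_10, sc_11]
    ring
  · rw [mul_10, mul_10, mul_11, inv_10, inv_11]
    simp only [lo_00, lo_01, lo_10, lo_11, sc_00, sc_01, sc_10, sc_11]
    linear_combination x * h2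
  · rw [mul_11, mul_10, mul_11, inv_10, inv_11]
    simp only [lo_00, lo_01, lo_10, lo_11, sc_00, sc_01, sc_10, sc_11]
    linear_combination h1

/-- The elementary matrices generate `SL(2, ℂ)`. -/
theorem gen (H : Subgroup G) (hu : ∀ x, up x ∈ H) (hl : ∀ x, lo x ∈ H) (g : G) : g ∈ H := by
  have key : ∀ g : G, g 1 0 ≠ 0 → g ∈ H := by
    intro g hg
    have hd := det_eq g
    have e : g = up ((g 0 0 - 1) / g 1 0) * lo (g 1 0) * up ((g 1 1 - 1) / g 1 0) := by
      apply ext_G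
      · rw [mul_00, mul_00, mul_01]
        simp only [up_00, up_01, up_10, up_11, lo_00, lo_01, lo_10, lo_11]
        field_simp
        ring
      · rw [mul_01, mul_00, mul_01]
        simp only [up_00, up_01, up_10, up_11, lo_00, lo_01, lo_10, lo_11]
        field_simp
        linear_combination -hd
      · rw [mul_10, mul_10, mul_11]
        simp only [up_00, up_01, up_10, up_11, lo_00, lo_01, lo_10, lo_11]
        ring
      · rw [mul_11, mul_10, mul_11]
        simp only [up_00, up_01, up_10, up_11, lo_00, lo_01, lo_10, lo_11]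
        field_simp
        ring
    rw [e]
    exact H.mul_mem (H.mul_mem (hu _) (hl _)) (hu _)
  by_cases hg : g 1 0 = 0
  · have hd := det_eq g
    rw [hg, mul_zero, sub_zero] at hd
    have h00 : g 0 0 ≠ 0 := left_ne_zero_of_mul_eq_one hd
    have h1 : lo 1 * g ∈ H := by
      apply key
      rw [mul_10, lo_10, lo_11, hg]
      simpa using h00
    have h2 : g = lo (-1) * (lo 1 * g) := by
      rw [← mul_assoc, ← lo_add, neg_add_cancel, lo_zero, one_mul]
    rw [h2]
    exact H.mul_mem (hl _) h1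
  · exact key g hg

/-! ### Topology and measure of `SL(2, ℂ)` -/

theorem secondCountable_G : SecondCountableTopology G :=
  have : SecondCountableTopology (Matrix (Fin 2) (Fin 2) ℂ) :=
    (inferInstance : SecondCountableTopology (Fin 2 → Fin 2 → ℂ))
  (Matrix.SpecialLinearGroup.isClosedEmbedding_val (n := Fin 2)
    (R := ℂ)).isEmbedding.secondCountableTopology

theorem t2_G : T2Space G :=
  have : T2Space (Matrix (Fin 2) (Fin 2) ℂ) :=
    (inferInstance : T2Space (Fin 2 → Fin 2 → ℂ))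
  (Matrix.SpecialLinearGroup.isClosedEmbedding_val (n := Fin 2) (R := ℂ)).isEmbedding.t2Space

/-- the modular character of `SL(2, ℂ)` is trivial -/
theorem modular_eq_one (g : G) :
    have := locallyCompact_G
    MeasureTheory.Measure.modularCharacter g = 1 := by
  intro inst
  set χ : G →* ℝ≥0 := MeasureTheory.Measure.modularCharacter with hχ
  have hne : ∀ g : G, χ g ≠ 0 := fun g => (MeasureTheory.Measure.modularCharacterFun_pos g).ne'
  have hinv : ∀ g : G, χ g * χ g⁻¹ = 1 := fun g => by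
    rw [← map_mul, mul_inv_cancel, map_one]
  have hone : ∀ y : ℝ≥0, y ≠ 0 → y ^ 4 = y → y = 1 := by
    intro y hy h
    have h3 : y ^ 3 = 1 := by
      have : y * y ^ 3 = y * 1 := by rw [mul_one]; rw [← pow_succ']; exact h
      exact mul_left_cancel₀ hy this
    exact (pow_eq_one_iff_of_nonneg (by positivity) (by norm_num)).1 h3
  have hu : ∀ x, χ (up x) = 1 := by
    intro x
    apply hone _ (hne _)
    have h1 : χ (up x) = χ (up ((1 / 4) ^ 1 * x)) := by
      rw [← sc_up, map_mul, map_mul]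
      have := hinv (sc 1)
      calc χ (up x) = (χ (sc 1) * χ (sc 1)⁻¹) * χ (up x) := by rw [this, one_mul]
        _ = _ := by ring
    have h2 : up x = up ((1 / 4) ^ 1 * x) * up ((1 / 4) ^ 1 * x) * up ((1 / 4) ^ 1 * x) *
        up ((1 / 4) ^ 1 * x) := by
      rw [← up_add, ← up_add, ← up_add]
      congr 1
      ring
    have h3 : χ (up x) = χ (up ((1 / 4) ^ 1 * x)) ^ 4 := by
      conv_lhs => rw [h2]
      rw [map_mul, map_mul, map_mul]
      ring
    conv_rhs => rw [h3]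
    rw [← h1]
  have hl : ∀ x, χ (lo x) = 1 := by
    intro x
    apply hone _ (hne _)
    have h1 : χ (lo x) = χ (lo ((1 / 4) ^ 1 * x)) := by
      rw [← sc_lo, map_mul, map_mul]
      have := hinv (sc 1)
      calc χ (lo x) = (χ (sc 1) * χ (sc 1)⁻¹) * χ (lo x) := by rw [this, one_mul]
        _ = _ := by ring
    have h2 : lo x = lo ((1 / 4) ^ 1 * x) * lo ((1 / 4) ^ 1 * x) * lo ((1 / 4) ^ 1 * x) *
        lo ((1 / 4) ^ 1 * x) := by
      rw [← lo_add, ← lo_add, ← lo_add]
      congr 1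
      ring
    have h3 : χ (lo x) = χ (lo ((1 / 4) ^ 1 * x)) ^ 4 := by
      conv_lhs => rw [h2]
      rw [map_mul, map_mul, map_mul]
      ring
    conv_rhs => rw [h3]
    rw [← h1]
  exact gen (MonoidHom.ker χ) (fun x => hu x) (fun x => hl x) g

theorem right_inv [MeasurableSpace G] [BorelSpace G] (μ : Measure G) [μ.IsHaarMeasure] :
    μ.IsMulRightInvariant := by
  have := locallyCompact_G
  have := secondCountable_G
  have := t2_G
  refine ⟨fun g => ?_⟩
  rw [MeasureTheory.Measure.map_right_mul_eq_modularCharacterFun_smul μ g]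
  have h : MeasureTheory.Measure.modularCharacterFun g = 1 := modular_eq_one g
  rw [h, one_smul]

/-! ### Contraction -/

lemma tendsto_quarter (x : ℂ) : Tendsto (fun k : ℕ => (1 / 4 : ℂ) ^ k * x) atTop (𝓝 0) := by
  have h : Tendsto (fun k : ℕ => (1 / 4 : ℂ) ^ k) atTop (𝓝 0) :=
    tendsto_pow_atTop_nhds_zero_of_norm_lt_one (by norm_num)
  simpa using h.mul_const x

lemma tendsto_up (x : ℂ) : Tendsto (fun k : ℕ => up ((1 / 4 : ℂ) ^ k * x)) atTop (𝓝 1) := by
  rw [tendsto_iff]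
  intro i j
  fin_cases i <;> fin_cases j
  · exact tendsto_const_nhds
  · exact tendsto_quarter x
  · exact tendsto_const_nhds
  · exact tendsto_const_nhds

lemma tendsto_lo (x : ℂ) : Tendsto (fun k : ℕ => lo ((1 / 4 : ℂ) ^ k * x)) atTop (𝓝 1) := by
  rw [tendsto_iff]
  intro i j
  fin_cases i <;> fin_cases j
  · exact tendsto_const_nhds
  · exact tendsto_const_nhds
  · exact tendsto_quarter x
  · exact tendsto_const_nhds

/-- the contracted elements generate the product group -/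
theorem gen_pi (ι : Type) [Finite ι] :
    Subgroup.closure {n : ι → G |
      Tendsto (fun k : ℕ => ((fun _ => sc 1 : ι → G) ^ k)⁻¹ * n * (fun _ => sc 1 : ι → G) ^ k)
        atTop (𝓝 1) ∨
      Tendsto (fun k : ℕ => (fun _ => sc 1 : ι → G) ^ k * n * ((fun _ => sc 1 : ι → G) ^ k)⁻¹)
        atTop (𝓝 1)} = ⊤ := by
  classical
  rw [eq_top_iff]
  intro x _
  apply Subgroup.pi_mem_of_mulSingle_mem
  intro i
  set S := Subgroup.closure {n : ι → G |
      Tendsto (fun k : ℕ => ((fun _ => sc 1 : ι → G) ^ k)⁻¹ * n * (fun _ => sc 1 : ι → G) ^ k)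
        atTop (𝓝 1) ∨
      Tendsto (fun k : ℕ => (fun _ => sc 1 : ι → G) ^ k * n * ((fun _ => sc 1 : ι → G) ^ k)⁻¹)
        atTop (𝓝 1)} with hS
  have key := gen (S.comap (MonoidHom.mulSingle (fun _ : ι => G) i)) (fun y => ?_) (fun y => ?_)
    (x i)
  · exact key
  · rw [Subgroup.mem_comap, hS]
    apply Subgroup.subset_closure
    right
    rw [tendsto_pi_nhds]
    intro j
    by_cases hj : j = i
    · subst hj
      refine (tendsto_up y).congr fun k => ?_
      rw [Pi.mul_apply, Pi.mul_apply, Pi.inv_apply, Pi.pow_apply, sc_pow, MonoidHom.mulSingle_apply,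
        Pi.mulSingle_eq_same, sc_up]
    · refine tendsto_const_nhds.congr fun k => ?_
      rw [Pi.mul_apply, Pi.mul_apply, Pi.inv_apply, MonoidHom.mulSingle_apply,
        Pi.mulSingle_eq_of_ne hj, mul_one, mul_inv_cancel]
      rfl
  · rw [Subgroup.mem_comap, hS]
    apply Subgroup.subset_closure
    left
    rw [tendsto_pi_nhds]
    intro j
    by_cases hj : j = i
    · subst hj
      refine (tendsto_lo y).congr fun k => ?_
      rw [Pi.mul_apply, Pi.mul_apply, Pi.inv_apply, Pi.pow_apply, sc_pow, MonoidHom.mulSingle_apply,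
        Pi.mulSingle_eq_same, sc_lo]
    · refine tendsto_const_nhds.congr fun k => ?_
      rw [Pi.mul_apply, Pi.mul_apply, Pi.inv_apply, MonoidHom.mulSingle_apply,
        Pi.mulSingle_eq_of_ne hj, mul_one, inv_mul_cancel]
      rfl

/-- a finite power of a discrete subgroup is discrete -/
theorem disc_pi (Γ : Subgroup G) [DiscreteTopology Γ] (ι : Type) [Finite ι] :
    DiscreteTopology (Subgroup.pi Set.univ (fun _ : ι => Γ)) := by
  refine DiscreteTopology.of_continuous_injective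
    (f := fun (l : Subgroup.pi Set.univ (fun _ : ι => Γ)) (i : ι) =>
      (⟨l.1 i, l.2 i (Set.mem_univ i)⟩ : Γ)) ?_ ?_
  · refine continuous_pi fun i => ?_
    exact Continuous.subtype_mk ((continuous_apply i).comp continuous_subtype_val) _
  · intro l l' h
    apply Subtype.ext
    funext i
    exact congrArg Subtype.val (congrFun h i)

theorem b0 (hA : AbsStmt) : B0Stmt := by
  classical
  intro Γ _ _ _ _ μ _ b hb
  have i1 := locallyCompact_G
  have i2 := secondCountable_G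
  have i3 := t2_G
  have i4 := right_inv μ
  by_contra hcon
  have hcon2 : ∀ b0 : ℂ, ‖b0‖ = 1 → ∃ ε : ℝ, 0 < ε ∧ ∃ W : Set G, MeasurableSet W ∧ μ W ≠ 0 ∧
      ∃ V : Set G, IsOpen V ∧ V.Nonempty ∧ ∃ T : ℕ, ∀ k : ℕ, k > T → ‖b k - b0‖ < ε →
        ∀ h ∈ W, ∀ γ ∈ Γ, γ * h * sc k ∉ V := by
    intro b0 hb0
    by_contra h1
    apply hcon
    refine ⟨b0, hb0, fun ε hε W hW hW0 V hV hVn T => ?_⟩
    by_contra h2
    apply h1
    refine ⟨ε, hε, W, hW, hW0, V, hV, hVn, T, fun k hk hbk h hh γ hγ hm => ?_⟩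
    exact h2 ⟨k, hk, hbk, h, hh, γ, hγ, hm⟩
  choose! ε hε W hWm hW V hVo hVn T hbad using hcon2
  obtain ⟨t, hts, htc⟩ := (isCompact_sphere (0 : ℂ) 1).elim_nhds_subcover
    (fun x => Metric.ball x (ε x)) (fun x hx => Metric.ball_mem_nhds x (hε x (by simpa using hx)))
  have hnorm : ∀ c ∈ t, ‖c‖ = 1 := fun c hc => by simpa using hts c hc
  set T0 : ℕ := t.sup T with hT0
  -- the product group
  set O : Set ({c // c ∈ t} → G) :=
    {x | ∃ k, k > T0 ∧ ∀ i, ∃ γ ∈ Γ, γ * x i * (sc k)⁻¹ ∈ W i.1} with hO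
  have hcount : Countable Γ := countable_of_Lindelof_of_discrete
  have hOm : MeasurableSet O := by
    have e : O = ⋃ k : ℕ, ⋃ (_ : k > T0), ⋂ i : {c // c ∈ t}, ⋃ γ : Γ,
        (fun x : {c // c ∈ t} → G => (γ : G) * x i * (sc k)⁻¹) ⁻¹' (W i.1) := by
      ext x
      simp only [hO, mem_ofPred_eq, mem_iUnion, mem_iInter, mem_preimage, exists_prop,
        Subtype.exists]
    rw [e]
    refine MeasurableSet.iUnion fun k => MeasurableSet.iUnion fun _ =>
      MeasurableSet.iInter fun i => MeasurableSet.iUnion fun γ => ?_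
    refine (hWm i.1 (hnorm i.1 i.2)).preimage ?_
    have hc : Continuous (fun x : {c // c ∈ t} → G => (γ : G) * x i * (sc k)⁻¹) := by
      fun_prop
    exact hc.measurable
  have hsig : SigmaFinite μ := inferInstance
  have hO0 : (Measure.pi fun _ : {c // c ∈ t} => μ) O ≠ 0 := by
    have hsub : (Set.pi Set.univ fun i : {c // c ∈ t} =>
        (fun g : G => g * (sc (T0 + 1))⁻¹) ⁻¹' (W i.1)) ⊆ O := by
      intro x hx
      refine ⟨T0 + 1, by omega, fun i => ⟨1, Γ.one_mem, ?_⟩⟩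
      rw [one_mul]
      exact hx i (Set.mem_univ i)
    intro h0
    have h1 := measure_mono_null hsub h0
    rw [Measure.pi_pi, Finset.prod_eq_zero_iff] at h1
    obtain ⟨i, -, hi⟩ := h1
    rw [measure_preimage_mul_right] at hi
    exact hW i.1 (hnorm i.1 i.2) hi
  obtain ⟨C, hC, hCc⟩ := coc_of_compact Γ
  have hdisc := disc_pi Γ {c // c ∈ t}
  have hnull := hA ({c // c ∈ t} → G) (Measure.pi fun _ => μ)
    (Subgroup.pi Set.univ (fun _ : {c // c ∈ t} => Γ)) (Set.pi Set.univ fun _ => C)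
    (isCompact_univ_pi fun _ => hC) (fun x => by
      choose l hl hlC using fun i => hCc (x i)
      exact ⟨l, fun i _ => hl i, fun i _ => hlC i⟩) (fun _ => sc 1) O hOm (by
      rintro l hl x ⟨k, hk, hx⟩
      refine ⟨k, hk, fun i => ?_⟩
      obtain ⟨γ, hγ, hm⟩ := hx i
      refine ⟨γ * (l i)⁻¹, Γ.mul_mem hγ (Γ.inv_mem (hl i (Set.mem_univ i))), ?_⟩
      rw [Pi.mul_apply, ← mul_assoc, inv_mul_cancel_right]
      exact hm) (by
      rintro x ⟨k, hk, hx⟩
      refine ⟨k + 1, by omega, fun i => ?_⟩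
      obtain ⟨γ, hγ, hm⟩ := hx i
      refine ⟨γ, hγ, ?_⟩
      have e : γ * (x i * sc 1) * (sc (k + 1))⁻¹ = γ * x i * (sc k)⁻¹ := by
        rw [sc_add, _root_.mul_inv_rev]
        group
      rw [Pi.mul_apply, e]
      exact hm) hO0 (gen_pi _)
  -- a point of the open box
  have hVp : IsOpen (Set.pi Set.univ fun i : {c // c ∈ t} => V i.1) :=
    isOpen_set_pi Set.finite_univ fun i _ => hVo i.1 (hnorm i.1 i.2)
  have hVpn : (Set.pi Set.univ fun i : {c // c ∈ t} => V i.1).Nonempty :=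
    Set.univ_pi_nonempty_iff.2 fun i => hVn i.1 (hnorm i.1 i.2)
  have hpos := hVp.measure_ne_zero (Measure.pi fun _ : {c // c ∈ t} => μ) hVpn
  obtain ⟨x, hxV, hxO⟩ : ∃ x, x ∈ (Set.pi Set.univ fun i : {c // c ∈ t} => V i.1) ∧ x ∈ O := by
    by_contra h1
    apply hpos
    refine measure_mono_null ?_ hnull
    intro x hx hxO
    exact h1 ⟨x, hx, hxO⟩
  obtain ⟨k, hk, hx⟩ := hxO
  obtain ⟨c, hc, hbc⟩ := mem_iUnion₂.1 (htc (by simpa using hb k : b k ∈ Metric.sphere (0 : ℂ) 1))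
  obtain ⟨γ, hγ, hm⟩ := hx ⟨c, hc⟩
  have hTk : k > T c := lt_of_le_of_lt (Finset.le_sup hc) hk
  refine hbad c (hnorm c hc) k hTk ?_ _ hm γ⁻¹ (Γ.inv_mem hγ) ?_
  · rw [← dist_eq_norm]
    exact hbc
  · have e : γ⁻¹ * (γ * x ⟨c, hc⟩ * (sc k)⁻¹) * sc k = x ⟨c, hc⟩ := by group
    rw [e]
    exact hxV ⟨c, hc⟩ (Set.mem_univ _)

end Pool.Agent.H60.GC
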